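import Pool.Agent.TH385.KKGrid.Fiber

/-!
The edge boundary in the grid, and the layer-cake decomposition.
-/

set_option autoImplicit false
set_option linter.unusedSectionVars false

noncomputable section

namespace Pool.Agent.TH385.KKGrid

open Finset Pool.Agent.TH385.KK

variable {n m : ℕ}

/-- edges of the grid with exactly one endpoint in `A`, as ordered pairs (inside, outside). -/
def edgeBoundary {k n : ℕ} (A : Finset (Fin n → Fin k)) :
    Finset ((Fin n → Fin k) × (Fin n → Fin k)) :=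
  Finset.univ.filter (fun p => p.1 ∈ A ∧ p.2 ∉ A ∧
    ∑ i, |((p.1 i : ℕ) : ℤ) - ((p.2 i : ℕ) : ℤ)| = 1)

lemma up_val {K : ℕ} {i : Fin n} {x : Fin n → Fin (K + 1)} (h : (x i : ℕ) < K) :
    (up i x i : ℕ) = x i + 1 := by
  unfold up
  rw [Function.update_self]
  simp only
  omega

lemma up_ne {K : ℕ} {i j : Fin n} (x : Fin n → Fin (K + 1)) (h : j ≠ i) :
    up i x j = x j := by
  unfold up
  rw [Function.update_of_ne h]

lemma le_up {K : ℕ} (i j : Fin n) {x : Fin n → Fin (K + 1)} (h : (x i : ℕ) < K) :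
    (x j : ℕ) ≤ up i x j := by
  by_cases hj : j = i
  · subst hj; rw [up_val h]; omega
  · rw [up_ne x hj]

lemma dist_up {K : ℕ} {i : Fin n} {x : Fin n → Fin (K + 1)} (h : (x i : ℕ) < K) :
    ∑ j, |((x j : ℕ) : ℤ) - ((up i x j : ℕ) : ℤ)| = 1 := by
  rw [Finset.sum_eq_single i]
  · rw [up_val h]; push_cast; simp
  · intro j _ hj
    rw [up_ne x hj]; simp
  · intro h; simp at h

lemma sum_Ti_le {K : ℕ} (A : Finset (Fin n → Fin (K + 1))) :
    ∑ i, (Ti A i).card ≤ (edgeBoundary A).card := by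
  rw [← Finset.card_sigma]
  apply Finset.card_le_card_of_injOn
    (fun p => if p.2 ∈ A then (p.2, up p.1 p.2) else (up p.1 p.2, p.2))
  · rintro ⟨i, x⟩ hx
    have hx1 := (Finset.mem_filter.1 (Finset.mem_sigma.1 (Finset.mem_coe.1 hx)).2).2
    simp only at hx1 ⊢
    apply Finset.mem_coe.2
    unfold edgeBoundary
    rw [Finset.mem_filter]
    refine ⟨Finset.mem_univ _, ?_⟩
    by_cases hxA : x ∈ A
    · rw [if_pos hxA]
      refine ⟨hxA, fun h => hx1.2 ⟨fun _ => h, fun _ => hxA⟩, dist_up hx1.1⟩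
    · rw [if_neg hxA]
      refine ⟨?_, hxA, ?_⟩
      · by_contra h
        exact hx1.2 ⟨fun h' => absurd h' hxA, fun h' => absurd h' h⟩
      · rw [← dist_up hx1.1]
        exact Finset.sum_congr rfl (fun j _ => abs_sub_comm _ _)
  · rintro ⟨i, x⟩ hx ⟨i', x'⟩ hx' heq
    have hx1 := (Finset.mem_filter.1 (Finset.mem_sigma.1 (Finset.mem_coe.1 hx)).2).2
    have hx1' := (Finset.mem_filter.1 (Finset.mem_sigma.1 (Finset.mem_coe.1 hx')).2).2
    simp only at hx1 hx1' heq
    have same : x = x' → up i x = up i' x' → (⟨i, x⟩ : (_ : Fin n) × (Fin n → Fin (K + 1)))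
        = ⟨i', x'⟩ := by
      intro h1 h2
      subst h1
      have : i = i' := by
        by_contra hne
        have h3 : (up i x i : ℕ) = up i' x i := by rw [h2]
        rw [up_val hx1.1, up_ne x hne] at h3
        omega
      subst this
      rfl
    have diff : x = up i' x' → x' = up i x → False := by
      intro h1 h2
      have h3 : (x i' : ℕ) = x' i' + 1 := by rw [h1]; exact up_val hx1'.1
      have h4 : (x i' : ℕ) ≤ x' i' := by rw [h2]; exact le_up i i' hx1.1
      omega
    by_cases hA : x ∈ A <;> by_cases hA' : x' ∈ A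
    · rw [if_pos hA, if_pos hA', Prod.mk.injEq] at heq
      exact same heq.1 heq.2
    · rw [if_pos hA, if_neg hA', Prod.mk.injEq] at heq
      exact (diff heq.1 heq.2.symm).elim
    · rw [if_neg hA, if_pos hA', Prod.mk.injEq] at heq
      exact (diff heq.2 heq.1.symm).elim
    · rw [if_neg hA, if_neg hA', Prod.mk.injEq] at heq
      exact same heq.2 heq.1

/-- low bits. -/
def low (n m h : ℕ) : Finset (Fin n × Fin m) := Finset.univ.filter (fun p => (p.2 : ℕ) < m - h)

lemma low_bd {q K : ℕ} (hq : q = 2 ^ m / (K + 1)) (hq0 : 0 < q) (h : ℕ)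
    (A : Finset (Fin n → Fin (K + 1))) :
    ∑ p ∈ low n m h, ((pull q K m A).filter (fun z => fl p z ∉ pull q K m A)).card
      ≤ 2 * 2 ^ (m - h) * (q + (K + 1)) ^ (n - 1) * (edgeBoundary A).card := by
  unfold low
  rw [Finset.sum_filter, Fintype.sum_prod_type]
  calc _ ≤ ∑ i : Fin n, 2 * 2 ^ (m - h) * (q + (K + 1)) ^ (n - 1) * (Ti A i).card :=
        Finset.sum_le_sum (fun i _ => dir_bound hq hq0 h A i)
    _ = 2 * 2 ^ (m - h) * (q + (K + 1)) ^ (n - 1) * ∑ i : Fin n, (Ti A i).card := by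
        rw [Finset.mul_sum]
    _ ≤ _ := Nat.mul_le_mul_left _ (sum_Ti_le A)

lemma card_low (n m h : ℕ) (hh : h ≤ m) : (low n m h).card = n * (m - h) := by
  unfold low
  have : (Finset.univ.filter (fun p : Fin n × Fin m => (p.2 : ℕ) < m - h))
      = Finset.univ ×ˢ (Finset.univ.filter (fun j : Fin m => (j : ℕ) < m - h)) := by
    ext p; simp
  rw [this, Finset.card_product, Finset.card_univ, Fintype.card_fin]
  congr 1
  rw [Fin.card_filter_val_lt]
  omega

lemma low_zero (n m : ℕ) : low n m 0 = Finset.univ := by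
  unfold low
  ext p
  simp

/-- level sets. -/
def lev (q K : ℕ) (F : Finset (Fin n × Fin m)) (c : Fin n × Fin m → Bool) (T : ℕ)
    (t : Fin n → Fin T) (i : Fin n) : Finset (Fin (K + 1)) :=
  Finset.univ.filter (fun a => (t i : ℕ) < bc q K F c i a)

lemma bc_le {q K : ℕ} (hq : q = 2 ^ m / (K + 1)) (hq0 : 0 < q) (F : Finset (Fin n × Fin m))
    (c : Fin n × Fin m → Bool) (i : Fin n) (a : Fin (K + 1)) :
    bc q K F c i a ≤ q + (K + 1) := by
  unfold bc
  refine le_trans (Finset.card_le_card ?_) (cell_le hq hq0 a)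
  exact Finset.filter_subset_filter _ (Finset.subset_univ _)

lemma layer_cake {q K : ℕ} (hq : q = 2 ^ m / (K + 1)) (hq0 : 0 < q)
    (F : Finset (Fin n × Fin m)) (c : Fin n × Fin m → Bool)
    (A : Finset (Fin n → Fin (K + 1))) :
    ∑ x ∈ A, ∏ i, bc q K F c i (x i)
      = ∑ t : Fin n → Fin (q + (K + 1)),
          (A ∩ Fintype.piFinset (lev q K F c (q + (K + 1)) t)).card := by
  have h1 : ∀ x : Fin n → Fin (K + 1), ∏ i, bc q K F c i (x i)
      = ∑ t : Fin n → Fin (q + (K + 1)),
        (if x ∈ Fintype.piFinset (lev q K F c (q + (K + 1)) t) then 1 else 0) := by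
    intro x
    have h2 : ∀ i, bc q K F c i (x i)
        = ∑ s : Fin (q + (K + 1)), (if (s : ℕ) < bc q K F c i (x i) then 1 else 0) := by
      intro i
      rw [← Finset.card_filter, Fin.card_filter_val_lt]
      exact (min_eq_right (bc_le hq hq0 F c i (x i))).symm
    rw [Finset.prod_congr rfl (fun i _ => h2 i), Finset.prod_univ_sum, Fintype.piFinset_univ]
    refine Finset.sum_congr rfl (fun t _ => ?_)
    by_cases hx : x ∈ Fintype.piFinset (lev q K F c (q + (K + 1)) t)
    · rw [if_pos hx]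
      rw [Fintype.mem_piFinset] at hx
      refine Finset.prod_eq_one (fun i _ => ?_)
      rw [if_pos (Finset.mem_filter.1 (hx i)).2]
    · rw [if_neg hx]
      rw [Fintype.mem_piFinset] at hx
      push Not at hx
      obtain ⟨i, hi⟩ := hx
      apply Finset.prod_eq_zero (Finset.mem_univ i)
      rw [if_neg]
      intro h
      exact hi (Finset.mem_filter.2 ⟨Finset.mem_univ _, h⟩)
  rw [Finset.sum_congr rfl (fun x _ => h1 x), Finset.sum_comm]
  refine Finset.sum_congr rfl (fun t _ => ?_)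
  rw [← Finset.card_filter]
  congr 1

end Pool.Agent.TH385.KKGrid
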