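import Pool.Agent.TH385.KKGrid.OneDim

/-!
Fibers of the binary expansion map in several coordinates.
-/

set_option autoImplicit false
set_option linter.unusedSectionVars false

noncomputable section

namespace Pool.Agent.TH385.KKGrid

open Finset Pool.Agent.TH385.KK

lemma fiber_sum {σ W κ R : Type*} [Fintype σ] [DecidableEq σ] [Fintype W] [DecidableEq W]
    [Fintype κ] [DecidableEq κ] [CommSemiring R] (φ : W → κ) (S : σ → Finset W)
    (H : (σ → κ) → R) :
    ∑ z ∈ Fintype.piFinset S, H (fun i => φ (z i))
      = ∑ x, H x * ∏ i, (((S i).filter (fun w => φ w = x i)).card : R) := by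
  rw [← Finset.sum_fiberwise (Fintype.piFinset S) (fun z i => φ (z i))]
  refine Finset.sum_congr rfl (fun x _ => ?_)
  have h1 : ∑ z ∈ Fintype.piFinset S with (fun i => φ (z i)) = x, H (fun i => φ (z i))
      = ∑ z ∈ Fintype.piFinset S with (fun i => φ (z i)) = x, H x := by
    refine Finset.sum_congr rfl (fun z hz => ?_)
    rw [(Finset.mem_filter.1 hz).2]
  rw [h1, Finset.sum_const, nsmul_eq_mul, mul_comm]
  congr 1
  have h2 : (Fintype.piFinset S).filter (fun z => (fun i => φ (z i)) = x)
      = Fintype.piFinset (fun i => (S i).filter (fun w => φ w = x i)) := by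
    ext z
    simp only [Finset.mem_filter, Fintype.mem_piFinset]
    constructor
    · rintro ⟨h3, h4⟩ i
      exact ⟨h3 i, by rw [← h4]⟩
    · intro h
      exact ⟨fun i => (h i).1, funext (fun i => (h i).2)⟩
  rw [h2, Fintype.card_piFinset]
  push_cast
  rfl

variable {n m : ℕ}

/-- the map from bits to grid points. -/
def Phi (q K : ℕ) (z : Fin n × Fin m → Bool) : Fin n → Fin (K + 1) :=
  fun i => phi q K (fun j => z (i, j))

/-- pull back of a subset of the grid. -/
def pull (q K : ℕ) (m : ℕ) (A : Finset (Fin n → Fin (K + 1))) : Finset (Fin n × Fin m → Bool) :=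
  Finset.univ.filter (fun z => Phi q K z ∈ A)

lemma mem_pull {q K : ℕ} {A : Finset (Fin n → Fin (K + 1))} {z : Fin n × Fin m → Bool} :
    z ∈ pull q K m A ↔ Phi q K z ∈ A := by simp [pull]

/-- the coordinate sets of a subcube. -/
def Sc (F : Finset (Fin n × Fin m)) (c : Fin n × Fin m → Bool) (i : Fin n) :
    Finset (Fin m → Bool) :=
  Finset.univ.filter (fun w => ∀ j, (i, j) ∉ F → w j = c (i, j))

/-- fiber counts inside a subcube. -/
def bc (q K : ℕ) (F : Finset (Fin n × Fin m)) (c : Fin n × Fin m → Bool) (i : Fin n)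
    (a : Fin (K + 1)) : ℕ :=
  ((Sc F c i).filter (fun w => phi q K w = a)).card

lemma card_supp_pull (q K : ℕ) (A : Finset (Fin n → Fin (K + 1))) (F : Finset (Fin n × Fin m))
    (c : Fin n × Fin m → Bool) :
    (supp (pull q K m A) F c).card = ∑ x ∈ A, ∏ i, bc q K F c i (x i) := by
  have h1 := fiber_sum (R := ℕ) (phi (m := m) q K) (Sc F c) (fun x => if x ∈ A then 1 else 0)
  have h2 : ∑ x, (if x ∈ A then 1 else 0) * ∏ i, (((Sc F c i).filter
      (fun w => phi q K w = x i)).card : ℕ) = ∑ x ∈ A, ∏ i, bc q K F c i (x i) := by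
    rw [← Finset.sum_filter_add_sum_filter_not Finset.univ (fun x => x ∈ A)]
    rw [Finset.sum_eq_zero (s := Finset.univ.filter (fun x => ¬ x ∈ A)), add_zero]
    · have : Finset.univ.filter (fun x => x ∈ A) = A := by ext x; simp
      rw [this]
      refine Finset.sum_congr rfl (fun x hx => ?_)
      rw [if_pos hx, one_mul]
      rfl
    · intro x hx
      rw [if_neg (Finset.mem_filter.1 hx).2, zero_mul]
  rw [← h2]
  simp only [Nat.cast_id] at h1
  rw [← h1, ← Finset.sum_filter, Finset.sum_const, smul_eq_mul, mul_one]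
  apply Finset.card_bij (fun z _ => fun i j => z (i, j))
  · intro z hz
    have hz' := mem_supp.1 hz
    rw [Finset.mem_filter, Fintype.mem_piFinset]
    refine ⟨fun i => ?_, ?_⟩
    · exact Finset.mem_filter.2 ⟨Finset.mem_univ _, fun j hj => hz'.2 (i, j) hj⟩
    · exact mem_pull.1 hz'.1
  · intro z _ z' _ h
    funext p
    exact congrFun (congrFun h p.1) p.2
  · intro z hz
    rw [Finset.mem_filter, Fintype.mem_piFinset] at hz
    refine ⟨fun p => z p.1 p.2, ?_, rfl⟩
    rw [mem_supp]
    refine ⟨mem_pull.2 hz.2, fun p hp => ?_⟩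
    exact (Finset.mem_filter.1 (hz.1 p.1)).2 p.2 hp

lemma card_free (F : Finset (Fin n × Fin m)) (c : Fin n × Fin m → Bool) (q K : ℕ) :
    2 ^ F.card = ∑ x : Fin n → Fin (K + 1), ∏ i, bc q K F c i (x i) := by
  rw [← card_supp_pull]
  have h := card_cube Fᶜ c
  rw [compl_compl] at h
  rw [← h]
  congr 1
  ext z
  rw [mem_supp, mem_pull]
  simp

lemma Sc_univ (c : Fin n × Fin m → Bool) (i : Fin n) : Sc Finset.univ c i = Finset.univ := by
  unfold Sc; ext w; simp

lemma card_pull (q K : ℕ) (A : Finset (Fin n → Fin (K + 1))) :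
    (pull q K m A).card = ∑ x ∈ A, ∏ i,
      (Finset.univ.filter (fun w : Fin m → Bool => phi q K w = x i)).card := by
  have h := card_supp_pull (m := m) q K A Finset.univ (fun _ => true)
  have h2 : supp (pull q K m A) Finset.univ (fun _ => true) = pull q K m A := by
    ext z; rw [mem_supp]; simp
  rw [h2] at h
  rw [h]
  unfold bc
  simp only [Sc_univ]

/-- gluing a coordinate. -/
def cb {α : Type*} (i : Fin n) (a : α) (r : {j : Fin n // j ≠ i} → α) : Fin n → α :=
  fun j => if h : j = i then a else r ⟨j, h⟩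

lemma cb_self {α : Type*} (i : Fin n) (a : α) (r : {j : Fin n // j ≠ i} → α) :
    cb i a r i = a := by simp [cb]

lemma cb_ne {α : Type*} {i j : Fin n} (h : j ≠ i) (a : α) (r : {j : Fin n // j ≠ i} → α) :
    cb i a r j = r ⟨j, h⟩ := by simp [cb, h]

/-- splitting off a coordinate. -/
def spl {α : Type*} (i : Fin n) : (Fin n → α) ≃ α × ({j : Fin n // j ≠ i} → α) where
  toFun x := (x i, fun j => x j)
  invFun p := cb i p.1 p.2
  left_inv x := by
    funext j
    by_cases h : j = i
    · subst h; simp [cb]
    · simp [cb, h]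
  right_inv p := by
    ext1
    · simp [cb]
    · funext j
      simp only
      rw [cb_ne j.2]

lemma sum_spl {α M : Type*} [Fintype α] [AddCommMonoid M] (i : Fin n) (f : (Fin n → α) → M) :
    ∑ x, f x = ∑ r : {j : Fin n // j ≠ i} → α, ∑ a : α, f (cb i a r) := by
  rw [← Equiv.sum_comp (spl i).symm f, Fintype.sum_prod_type, Finset.sum_comm]
  rfl

/-- one step up. -/
def up {K : ℕ} (i : Fin n) (x : Fin n → Fin (K + 1)) : Fin n → Fin (K + 1) :=
  Function.update x i ⟨min ((x i : ℕ) + 1) K, by omega⟩

/-- lower endpoints of boundary edges in direction `i`. -/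
def Ti {K : ℕ} (A : Finset (Fin n → Fin (K + 1))) (i : Fin n) : Finset (Fin n → Fin (K + 1)) :=
  Finset.univ.filter (fun x => (x i : ℕ) < K ∧ ¬ (x ∈ A ↔ up i x ∈ A))

lemma card_Ti {K : ℕ} (A : Finset (Fin n → Fin (K + 1))) (i : Fin n) :
    (Ti A i).card = ∑ r : {j : Fin n // j ≠ i} → Fin (K + 1), bd1 (fun a => cb i a r ∈ A) := by
  unfold Ti
  rw [Finset.card_filter, sum_spl i]
  refine Finset.sum_congr rfl (fun r _ => ?_)
  unfold bd1
  rw [Finset.card_filter, Fin.sum_univ_castSucc]
  have hlast : (if (((cb i (Fin.last K) r i : Fin (K + 1)) : ℕ) < K ∧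
      ¬ (cb i (Fin.last K) r ∈ A ↔ up i (cb i (Fin.last K) r) ∈ A)) then 1 else 0) = 0 := by
    rw [cb_self]; simp
  rw [hlast, add_zero]
  refine Finset.sum_congr rfl (fun c _ => ?_)
  have hup : up i (cb i c.castSucc r) = cb i c.succ r := by
    funext j
    unfold up
    by_cases h : j = i
    · subst h
      rw [Function.update_self]
      apply Fin.ext
      simp only [cb_self, Fin.val_castSucc, Fin.val_succ]
      omega
    · rw [Function.update_of_ne h, cb_ne h, cb_ne h]
  rw [hup, cb_self]
  simp

lemma card_sub (i : Fin n) : Fintype.card {j : Fin n // j ≠ i} = n - 1 := by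
  rw [Fintype.card_subtype_compl]; simp

/-- boundary in direction `i` of the pull back, low bits only. -/
lemma dir_bound {q K : ℕ} (hq : q = 2 ^ m / (K + 1)) (hq0 : 0 < q) (h : ℕ)
    (A : Finset (Fin n → Fin (K + 1))) (i : Fin n) :
    ∑ j : Fin m, (if (j : ℕ) < m - h then
      ((pull q K m A).filter (fun z => fl (i, j) z ∉ pull q K m A)).card else 0)
      ≤ 2 * 2 ^ (m - h) * (q + (K + 1)) ^ (n - 1) * (Ti A i).card := by
  have h1 : ∀ j : Fin m, ((pull q K m A).filter (fun z => fl (i, j) z ∉ pull q K m A)).card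
      = ∑ r : {j : Fin n // j ≠ i} → (Fin m → Bool),
        (Finset.univ.filter (fun w : Fin m → Bool =>
          cb i (phi q K w) (fun j' => phi q K (r j')) ∈ A ∧
          ¬ cb i (phi q K (fl j w)) (fun j' => phi q K (r j')) ∈ A)).card := by
    intro j
    rw [Finset.card_filter]
    unfold pull
    rw [Finset.sum_filter]
    have e1 : ∑ z : Fin n × Fin m → Bool, (if Phi q K z ∈ A then
          (if fl (i, j) z ∉ Finset.univ.filter (fun z => Phi q K z ∈ A) then 1 else 0) else 0)
        = ∑ z : Fin n → Fin m → Bool, (if (fun i' => phi q K (z i')) ∈ A ∧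
            ¬ (fun i' => phi q K (if i' = i then fl j (z i') else z i')) ∈ A then 1 else 0) := by
      rw [← Equiv.sum_comp (Equiv.curry (Fin n) (Fin m) Bool).symm]
      refine Finset.sum_congr rfl (fun z _ => ?_)
      have e2 : Phi q K ((Equiv.curry (Fin n) (Fin m) Bool).symm z)
          = fun i' => phi q K (z i') := rfl
      have e3 : Phi q K (fl (i, j) ((Equiv.curry (Fin n) (Fin m) Bool).symm z))
          = fun i' => phi q K (if i' = i then fl j (z i') else z i') := by
        funext i'
        unfold Phi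
        congr 1
        funext j'
        by_cases hi : i' = i
        · subst hi
          rw [if_pos rfl]
          by_cases hj : j' = j
          · subst hj; rw [fl_same, fl_same]; rfl
          · rw [fl_ne hj, fl_ne (by simpa using hj)]; rfl
        · rw [if_neg hi, fl_ne (by simpa using (fun h => absurd h hi))]; rfl
      rw [e2]
      simp only [Finset.mem_filter, Finset.mem_univ, true_and]
      rw [e3]
      split_ifs <;> simp_all
    rw [e1, sum_spl i]
    refine Finset.sum_congr rfl (fun r _ => ?_)
    rw [Finset.card_filter]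
    refine Finset.sum_congr rfl (fun w _ => ?_)
    have e4 : (fun i' => phi q K (cb i w r i')) = cb i (phi q K w) (fun j' => phi q K (r j')) := by
      funext i'
      by_cases hi : i' = i
      · subst hi; rw [cb_self, cb_self]
      · rw [cb_ne hi, cb_ne hi]
    have e5 : (fun i' => phi q K (if i' = i then fl j (cb i w r i') else cb i w r i'))
        = cb i (phi q K (fl j w)) (fun j' => phi q K (r j')) := by
      funext i'
      by_cases hi : i' = i
      · subst hi; rw [cb_self, if_pos rfl, cb_self]
      · rw [if_neg hi, cb_ne hi, cb_ne hi]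
    rw [e4, e5]
  calc ∑ j : Fin m, (if (j : ℕ) < m - h then
        ((pull q K m A).filter (fun z => fl (i, j) z ∉ pull q K m A)).card else 0)
      = ∑ r : {j : Fin n // j ≠ i} → (Fin m → Bool), ∑ j : Fin m, (if (j : ℕ) < m - h then
          (Finset.univ.filter (fun w : Fin m → Bool =>
          cb i (phi q K w) (fun j' => phi q K (r j')) ∈ A ∧
          ¬ cb i (phi q K (fl j w)) (fun j' => phi q K (r j')) ∈ A)).card else 0) := by
        rw [Finset.sum_comm]
        refine Finset.sum_congr rfl (fun j _ => ?_)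
        split_ifs
        · exact h1 j
        · simp
    _ ≤ ∑ r : {j : Fin n // j ≠ i} → (Fin m → Bool),
          2 * 2 ^ (m - h) * bd1 (fun a => cb i a (fun j' => phi q K (r j')) ∈ A) :=
        Finset.sum_le_sum (fun r _ =>
          one_dim hq0 h (fun a => cb i a (fun j' => phi q K (r j')) ∈ A))
    _ = 2 * 2 ^ (m - h) * ∑ r : {j : Fin n // j ≠ i} → (Fin m → Bool),
          bd1 (fun a => cb i a (fun j' => phi q K (r j')) ∈ A) := by rw [Finset.mul_sum]
    _ ≤ 2 * 2 ^ (m - h) * ((q + (K + 1)) ^ (n - 1) * (Ti A i).card) := by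
        apply Nat.mul_le_mul_left
        have hf := fiber_sum (R := ℕ) (σ := {j : Fin n // j ≠ i}) (phi (m := m) q K)
          (fun _ => Finset.univ) (fun x => bd1 (fun a => cb i a x ∈ A))
        rw [Fintype.piFinset_univ] at hf
        rw [hf, card_Ti, Finset.mul_sum]
        refine Finset.sum_le_sum (fun r _ => ?_)
        rw [mul_comm]
        apply Nat.mul_le_mul_right
        calc _ ≤ ∏ _j : {j : Fin n // j ≠ i}, (q + (K + 1)) := by
              apply Finset.prod_le_prod'
              intro j _
              exact cell_le hq hq0 _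
          _ = _ := by rw [Finset.prod_const, Finset.card_univ, card_sub]
    _ = _ := by ring

end Pool.Agent.TH385.KKGrid
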