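import Pool.Agent.TH385.KK.Final

/-!
Slightly more general forms of the cube iteration and of the entropy bound.
-/

set_option autoImplicit false
set_option linter.unusedSectionVars false

noncomputable section

namespace Pool.Agent.TH385.KKGrid

open Finset Pool.Agent.TH385.KK

variable {ι : Type*} [Fintype ι] [DecidableEq ι]
variable {μ : (ι → Bool) → ℝ}

/-- The main iteration with a flexible density threshold. -/
theorem exists_dense' {L0 δ : ℝ} (hL0 : 1 ≤ L0) (hδ0 : 0 < δ)
    {A : Finset (ι → Bool)} (hA : A.Nonempty)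
    (hδ : (1 + δ) ^ 2 * ((A.card : ℝ) / 2 ^ Fintype.card ι) ≤ 1)
    (hbd : (bd A : ℝ) ≤ L0 * A.card * (Fintype.card ι * Real.log 2 - Real.log A.card)) :
    ∃ F : Finset ι, ∃ c : ι → Bool,
      (Fintype.card ι - F.card : ℝ) ≤ 2 * L0 / epsL (2 * L0)
        * (Fintype.card ι * Real.log 2 - Real.log A.card) ∧
      (1 + δ) * ((A.card : ℝ) / 2 ^ Fintype.card ι) ≤ ((supp A F c).card : ℝ) / 2 ^ F.card := by
  set n := Fintype.card ι with hn
  set ℓ : ℝ := n * Real.log 2 - Real.log A.card with hℓ
  have hN : (0 : ℝ) < A.card := by exact_mod_cast Finset.card_pos.2 hA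
  have hlog2 : 0 < Real.log 2 := Real.log_pos (by norm_num)
  have hlogδ : Real.log (1 + δ) ≤ ℓ / 2 := by
    have h1 : Real.log ((1 + δ) ^ 2 * ((A.card : ℝ) / 2 ^ n)) ≤ 0 :=
      Real.log_nonpos (by positivity) hδ
    rw [Real.log_mul (by positivity) (by positivity), Real.log_div hN.ne' (by positivity),
      Real.log_pow, Real.log_pow] at h1
    push_cast at h1
    rw [hℓ]
    linarith
  have hδpos : 0 < Real.log (1 + δ) := Real.log_pos (by linarith)
  have hℓ0 : 0 < ℓ := by linarith
  set ε := epsL (2 * L0) with hε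
  have hε0 : 0 < ε := epsL_pos (by linarith)
  set M : ℝ := 16 * (2 * L0) + 1 / 2 with hM
  have hM2 : 1 / 2 ≤ M := by rw [hM]; linarith
  by_contra hc
  push Not at hc
  set K := ⌊2 * L0 / ε * ℓ⌋₊ with hK
  have hKle : (K : ℝ) ≤ 2 * L0 / ε * ℓ := Nat.floor_le (by positivity)
  have hKlt : 2 * L0 / ε * ℓ < K + 1 := Nat.lt_floor_add_one _
  -- main claim
  have claim : ∀ k : ℕ, k ≤ K + 1 → ∃ F : Finset ι, F.card + k = n ∧ ∃ c : ι → Bool,
      ∃ ν ∈ PS (supp A F c), Jf M A F ν ≤ L0 * ℓ - k * (ε / 2) := by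
    intro k
    induction k with
    | zero =>
      intro _
      refine ⟨Finset.univ, by rw [Finset.card_univ, hn, add_zero], fun _ => true, unif A,
        unif_mem hA _, ?_⟩
      rw [Jf_unif M hA, ← hn, ← hℓ]
      have h1 : (bd A : ℝ) / A.card ≤ L0 * ℓ := by
        rw [div_le_iff₀ hN]; linarith
      push_cast
      linarith
    | succ k ih =>
      intro hk
      obtain ⟨F, hF, c, ν, hν, hJ⟩ := ih (by omega)
      obtain ⟨μ, hμ, hmin⟩ := exists_min M A (supp A F c) F ⟨ν, hν⟩
      have hJμ : Jf M A F μ ≤ L0 * ℓ - k * (ε / 2) := (hmin ν hν).trans hJ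
      have hcodim : (n - F.card : ℝ) = k := by
        have : (n : ℝ) = F.card + k := by rw [← hF]; push_cast; ring
        rw [this]; ring
      have hdens := hc F c (by
        rw [hcodim]
        have : (k : ℝ) ≤ K := by exact_mod_cast (by omega : k ≤ K)
        linarith)
      -- l
      set l : ℝ := F.card * Real.log 2 - Real.log (supp A F c).card with hl
      have hSne : (supp A F c).Nonempty := by
        by_contra h
        rw [Finset.not_nonempty_iff_eq_empty] at h
        have : ∑ x, μ x = 0 := Finset.sum_eq_zero (fun x _ => hμ.2.2 x (by rw [h]; simp))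
        have h2 := hμ.2.1
        rw [this] at h2
        norm_num at h2
      have hSpos : (0 : ℝ) < (supp A F c).card := by exact_mod_cast Finset.card_pos.2 hSne
      have hlge : ℓ / 2 ≤ l := by
        have h1 := Real.log_le_log (by positivity) hdens.le
        rw [Real.log_div hSpos.ne' (by positivity), Real.log_pow,
          Real.log_mul (by positivity) (by positivity),
          Real.log_div hN.ne' (by positivity), Real.log_pow] at h1
        rw [hl]; linarith
      have hl0 : 0 < l := by linarith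
      have hkε : 0 ≤ (k : ℝ) * (ε / 2) := by positivity
      have hJl : Jf M A F μ ≤ 2 * L0 * l := by nlinarith
      obtain ⟨i, hi, hhard⟩ := key (L1 := 2 * L0) (by linarith) hl0 (supp_subset A F c) hμ hmin
        (DR_eq hμ) (DR_ge hμ) hJl
      obtain ⟨c', ν', hν', hJ'⟩ := exists_restrict hM2 hi hμ
      refine ⟨F.erase i, ?_, c', ν', hν', ?_⟩
      · rw [Finset.card_erase_of_mem hi]
        have := Finset.card_pos.2 ⟨i, hi⟩
        omega
      · push_cast
        rw [← hε] at hhard
        linarith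
  obtain ⟨F, -, c, ν, hν, hJ⟩ := claim (K + 1) le_rfl
  have h0 := Jf_nonneg hM2 hν
  push_cast at hJ
  have h1 : 2 * L0 * ℓ < (K + 1) * ε := by
    have : 2 * L0 / ε * ℓ = 2 * L0 * ℓ / ε := by ring
    rw [this, div_lt_iff₀ hε0] at hKlt
    exact hKlt
  linarith

lemma DR_union_le (A : Finset (ι → Bool)) (hμ : ∀ x, 0 ≤ μ x) (hA : ∀ x, x ∉ A → μ x = 0)
    (hm : ∑ x, μ x = 1) (G F : Finset ι) (hGF : Disjoint G F) :
    DR μ (G ∪ F) ≤ DR μ G + ∑ j ∈ F, (hard A μ j + soft A μ j) := by
  induction F using Finset.induction_on with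
  | empty => simp
  | insert j F hj ih =>
    rw [Finset.disjoint_insert_right] at hGF
    have ih' := ih hGF.2
    rw [Finset.sum_insert hj, Finset.union_insert]
    have hjn : j ∉ G ∪ F := by
      rw [Finset.mem_union]; push Not; exact ⟨hGF.1, hj⟩
    have h1 := DR_insert_le hμ hm hjn
    have h2 := nsq_ce_chi_le A hμ hA hjn
    linarith

lemma hard_unif {A : Finset (ι → Bool)} (hA : A.Nonempty) (j : ι) :
    hard A (unif A) j = ((A.filter (fun x => fl j x ∉ A)).card : ℝ) / A.card := by
  have hN : (0 : ℝ) < A.card := by exact_mod_cast Finset.card_pos.2 hA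
  unfold hard unif
  have : ∀ x, (if x ∈ A then ((A.card : ℝ))⁻¹ else 0) * (if fl j x ∈ A then (0:ℝ) else 1)
      = if x ∈ A.filter (fun x => fl j x ∉ A) then ((A.card : ℝ))⁻¹ else 0 := by
    intro x
    by_cases hx : x ∈ A <;> by_cases hf : fl j x ∈ A <;> simp [hx, hf]
  rw [Finset.sum_congr rfl (fun x _ => this x), Finset.sum_ite_mem, Finset.univ_inter,
    Finset.sum_const, nsmul_eq_mul]
  field_simp

lemma soft_unif (A : Finset (ι → Bool)) (j : ι) : soft A (unif A) j = 0 := by
  unfold soft unif psi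
  refine Finset.sum_eq_zero (fun x _ => ?_)
  by_cases hx : x ∈ A <;> by_cases hf : fl j x ∈ A <;> simp [hx, hf]

lemma DR_unif_univ {A : Finset (ι → Bool)} (hA : A.Nonempty) :
    DR (unif A) Finset.univ = Fintype.card ι * Real.log 2 - Real.log A.card := by
  have hN : (0 : ℝ) < A.card := by exact_mod_cast Finset.card_pos.2 hA
  rw [DR_eq (unif_mem hA (fun _ => true))]
  have h3 : ∑ x, unif A x * Real.log (unif A x) = - Real.log A.card := by
    unfold unif
    have : ∀ x, (if x ∈ A then ((A.card : ℝ))⁻¹ else 0)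
        * Real.log (if x ∈ A then ((A.card : ℝ))⁻¹ else 0)
        = if x ∈ A then ((A.card : ℝ))⁻¹ * (- Real.log A.card) else 0 := by
      intro x
      by_cases hx : x ∈ A <;> simp [hx]
    rw [Finset.sum_congr rfl (fun x _ => this x), Finset.sum_ite_mem, Finset.univ_inter,
      Finset.sum_const, nsmul_eq_mul]
    field_simp
  rw [h3, Finset.card_univ]; ring

lemma mr_unif (A : Finset (ι → Bool)) (F : Finset ι) (x : ι → Bool) :
    mr (unif A) Fᶜ x = ((supp A F x).card : ℝ) * ((A.card : ℝ))⁻¹ := by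
  unfold mr unif ag
  have : ∀ y, (if ∀ i ∈ Fᶜ, x i = y i then (1:ℝ) else 0)
      * (if y ∈ A then ((A.card : ℝ))⁻¹ else 0)
      = if y ∈ supp A F x then ((A.card : ℝ))⁻¹ else 0 := by
    intro y
    by_cases hy : y ∈ A
    · by_cases hc : ∀ i ∈ Fᶜ, x i = y i
      · have : y ∈ supp A F x := mem_supp.2 ⟨hy, fun i hi => (hc i (Finset.mem_compl.2 hi)).symm⟩
        rw [if_pos hc, if_pos hy, if_pos this, one_mul]
      · have : y ∉ supp A F x := fun h => hc (fun i hi =>
          ((mem_supp.1 h).2 i (Finset.mem_compl.1 hi)).symm)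
        rw [if_neg hc, if_neg this, zero_mul]
    · have : y ∉ supp A F x := fun h => hy (mem_supp.1 h).1
      rw [if_neg hy, if_neg this, mul_zero]
  rw [Finset.sum_congr rfl (fun y _ => this y), Finset.sum_ite_mem, Finset.univ_inter,
    Finset.sum_const, nsmul_eq_mul]

/-- If no cell of the partition by the coordinates outside `F` is dense, then the boundary in
the directions of `F` is large. -/
lemma low_bound {B : Finset (ι → Bool)} (hB : B.Nonempty) (F : Finset ι) {θ : ℝ} (hθ : 0 < θ)
    (h : ∀ c, ((supp B F c).card : ℝ) / 2 ^ F.card ≤ θ * ((B.card : ℝ) / 2 ^ Fintype.card ι)) :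
    Fintype.card ι * Real.log 2 - Real.log B.card - Real.log θ
      ≤ (∑ j ∈ F, (B.filter (fun x => fl j x ∉ B)).card : ℕ) / (B.card : ℝ) := by
  have hN : (0 : ℝ) < B.card := by exact_mod_cast Finset.card_pos.2 hB
  obtain ⟨hμ, hm, -⟩ := unif_mem hB (fun _ => true)
  have hA : ∀ x, x ∉ B → unif B x = 0 := fun x hx => by unfold unif; rw [if_neg hx]
  have h1 := DR_union_le B hμ hA hm Fᶜ F (disjoint_compl_left)
  have hu : Fᶜ ∪ F = Finset.univ := by
    ext i; simp [em']
  rw [hu, DR_unif_univ hB] at h1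
  have h2 : ∑ j ∈ F, (hard B (unif B) j + soft B (unif B) j)
      = (∑ j ∈ F, (B.filter (fun x => fl j x ∉ B)).card : ℕ) / (B.card : ℝ) := by
    rw [Finset.sum_congr rfl (fun j _ => by rw [hard_unif hB j, soft_unif B j, add_zero])]
    rw [← Finset.sum_div]
    push_cast
    rfl
  rw [h2] at h1
  have h3 : DR (unif B) Fᶜ ≤ Real.log θ := by
    unfold DR
    have e1 : (Fᶜ.card : ℝ) * Real.log 2 = ∑ x, unif B x * (Fᶜ.card * Real.log 2) := by
      rw [← Finset.sum_mul, hm, one_mul]
    have e2 : Real.log θ = ∑ x, unif B x * Real.log θ := by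
      rw [← Finset.sum_mul, hm, one_mul]
    rw [e1, e2, ← Finset.sum_add_distrib]
    refine Finset.sum_le_sum (fun x _ => ?_)
    rw [← mul_add]
    by_cases hx : x ∈ B
    · apply mul_le_mul_of_nonneg_left _ (hμ x)
      have hS : 0 < ((supp B F x).card : ℝ) := by
        have : x ∈ supp B F x := mem_supp.2 ⟨hx, fun _ _ => rfl⟩
        exact_mod_cast Finset.card_pos.2 ⟨x, this⟩
      rw [mr_unif, ← Real.log_pow, ← Real.log_mul (by positivity) (by positivity)]
      apply Real.log_le_log (by positivity)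
      have h4 := h x
      have hcard : (2:ℝ) ^ Fintype.card ι = 2 ^ F.card * 2 ^ Fᶜ.card := by
        rw [← pow_add, Finset.card_add_card_compl]
      rw [hcard, div_le_iff₀ (by positivity)] at h4
      have h5 : θ * ((B.card : ℝ) / (2 ^ F.card * 2 ^ Fᶜ.card)) * 2 ^ F.card
          = θ * B.card / 2 ^ Fᶜ.card := by field_simp
      rw [h5, le_div_iff₀ (by positivity)] at h4
      rw [mul_right_comm, ← div_eq_mul_inv, div_le_iff₀ hN]
      exact h4
    · rw [hA x hx]; simp
  linarith

end Pool.Agent.TH385.KKGrid
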