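import Pool.Agent.TH385.KKGrid.Boundary
import Pool.Agent.TH385.KKGrid.Iter2

/-!
Density increment in the grid.
-/

set_option autoImplicit false
set_option linter.unusedSectionVars false

noncomputable section

namespace Pool.Agent.TH385.KKGrid

open Finset Pool.Agent.TH385.KK

lemma choose_m (n K h : ℕ) : ∃ m : ℕ, h ≤ m ∧ 0 < 2 ^ m / (K + 1) ∧
    ((((2 ^ m / (K + 1) : ℕ) : ℝ) + (K + 1)) / ((2 ^ m / (K + 1) : ℕ) : ℝ)) ^ n ≤ 11 / 10 := by
  refine ⟨20 * (n + 1) * (K + 1) * (K + 1) + h, Nat.le_add_left _ _, ?_, ?_⟩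
  all_goals
    set m := 20 * (n + 1) * (K + 1) * (K + 1) + h with hm
    have hq : 20 * (n + 1) * (K + 1) ≤ 2 ^ m / (K + 1) := by
      rw [Nat.le_div_iff_mul_le (show 0 < K + 1 by omega)]
      have : m < 2 ^ m := Nat.lt_two_pow_self
      omega
  · have : 0 < 20 * (n + 1) * (K + 1) := by positivity
    omega
  · set q := 2 ^ m / (K + 1) with hqdef
    have hqR : (20 * (n + 1) * (K + 1) : ℝ) ≤ (q : ℝ) := by exact_mod_cast hq
    have hpos : (0 : ℝ) < 20 * (n + 1) * (K + 1) := by positivity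
    have hq0 : (0 : ℝ) < q := by linarith
    have h1 : ((q : ℝ) + (K + 1)) / q ≤ Real.exp (1 / (20 * (n + 1))) := by
      have h2 : ((q : ℝ) + (K + 1)) / q = (K + 1) / q + 1 := by field_simp; ring
      rw [h2]
      have h3 : ((K : ℝ) + 1) / q ≤ 1 / (20 * (n + 1)) := by
        rw [div_le_div_iff₀ hq0 (by positivity)]
        linarith
      exact (add_le_add_left h3 1).trans (Real.add_one_le_exp _)
    have h4 : (((q : ℝ) + (K + 1)) / q) ^ n ≤ Real.exp (1 / (20 * (n + 1))) ^ n :=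
      pow_le_pow_left₀ (by positivity) h1 n
    refine h4.trans ?_
    rw [← Real.exp_nat_mul]
    have h5 : (n : ℝ) * (1 / (20 * (n + 1))) ≤ 1 / 20 := by
      rw [mul_one_div, div_le_div_iff₀ (by positivity) (by norm_num)]
      linarith
    refine (Real.exp_le_exp.2 h5).trans ?_
    have h6 := Real.add_one_le_exp (-(1 / 20 : ℝ))
    rw [Real.exp_neg] at h6
    have h7 : 0 < Real.exp (1 / 20) := Real.exp_pos _
    have h8 : (19 / 20 : ℝ) * Real.exp (1 / 20) ≤ 1 := by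
      have h9 : (19 / 20 : ℝ) ≤ (Real.exp (1 / 20))⁻¹ := by linarith
      calc (19 / 20 : ℝ) * Real.exp (1 / 20) ≤ (Real.exp (1 / 20))⁻¹ * Real.exp (1 / 20) :=
            mul_le_mul_of_nonneg_right h9 h7.le
        _ = 1 := inv_mul_cancel₀ h7.ne'
    linarith

variable {n m : ℕ}

lemma card_pull_ge {q K : ℕ} (hq : q = 2 ^ m / (K + 1)) (hq0 : 0 < q)
    (A : Finset (Fin n → Fin (K + 1))) : q ^ n * A.card ≤ (pull q K m A).card := by
  rw [card_pull, mul_comm, ← smul_eq_mul, ← Finset.sum_const]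
  refine Finset.sum_le_sum (fun x _ => ?_)
  calc q ^ n = ∏ _i : Fin n, q := by simp
    _ ≤ _ := Finset.prod_le_prod' (fun i _ => le_cell hq hq0 _)

lemma card_pull_le {q K : ℕ} (hq : q = 2 ^ m / (K + 1)) (hq0 : 0 < q)
    (A : Finset (Fin n → Fin (K + 1))) : (pull q K m A).card ≤ (q + (K + 1)) ^ n * A.card := by
  rw [card_pull, mul_comm, ← smul_eq_mul, ← Finset.sum_const]
  refine Finset.sum_le_sum (fun x _ => ?_)
  calc _ ≤ ∏ _i : Fin n, (q + (K + 1)) := Finset.prod_le_prod' (fun i _ => cell_le hq hq0 _)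
    _ = _ := by simp

/-- exponent for the subcube. -/
def L1f (L : ℝ) : ℝ :=
  4 * (1 + 20 * L) / epsL (2 * (1 + 20 * L)) + (1 + Real.log (2 + 12 * L))

/-- the logarithm of the inverse density. -/
def ell {n K : ℕ} (A : Finset (Fin n → Fin (K + 1))) : ℝ :=
  n * Real.log (K + 1) - Real.log A.card

lemma rterm {a k : ℝ} (ha : 0 < a) (hk : 0 < k) {r : ℝ} (hr : 0 < r) (n : ℝ) :
    a ^ (1 - 1 / r) * r * k ^ (n / r - 1)
      = a / k * (r * Real.exp ((n * Real.log k - Real.log a) / r)) := by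
  rw [Real.rpow_def_of_pos ha, Real.rpow_def_of_pos hk]
  have h1 : a / k = Real.exp (Real.log a - Real.log k) := by
    rw [Real.exp_sub, Real.exp_log ha, Real.exp_log hk]
  rw [h1]
  have h2 : Real.exp (Real.log a * (1 - 1 / r)) * r * Real.exp (Real.log k * (n / r - 1))
      = r * (Real.exp (Real.log a * (1 - 1 / r)) * Real.exp (Real.log k * (n / r - 1))) := by ring
  have h3 : Real.exp (Real.log a - Real.log k)
        * (r * Real.exp ((n * Real.log k - Real.log a) / r))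
      = r * (Real.exp (Real.log a - Real.log k)
        * Real.exp ((n * Real.log k - Real.log a) / r)) := by ring
  rw [h2, h3, ← Real.exp_add, ← Real.exp_add]
  congr 2
  field_simp
  ring

/-- everything about one blow-up. -/
lemma blow_facts {q K : ℕ} (hq : q = 2 ^ m / (K + 1)) (hq0 : 0 < q)
    {A : Finset (Fin n → Fin (K + 1))} (hA : A.Nonempty) (hn : 0 < n)
    (hκ : (((q : ℝ) + (K + 1)) / q) ^ n ≤ 11 / 10) :
    (pull q K m A).Nonempty ∧
    ((pull q K m A).card : ℝ) / 2 ^ Fintype.card (Fin n × Fin m)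
      ≤ 11 / 10 * ((A.card : ℝ) / ((K : ℝ) + 1) ^ n) ∧
    10 / 11 * ((A.card : ℝ) / ((K : ℝ) + 1) ^ n)
      ≤ ((pull q K m A).card : ℝ) / 2 ^ Fintype.card (Fin n × Fin m) ∧
    ((q : ℝ) + (K + 1)) ^ n * ((K : ℝ) + 1) ^ n
      ≤ 11 / 10 * 2 ^ Fintype.card (Fin n × Fin m) ∧
    (∀ h, h ≤ m → ((∑ p ∈ low n m h,
      ((pull q K m A).filter (fun z => fl p z ∉ pull q K m A)).card : ℕ) : ℝ)
      ≤ 22 / 10 / 2 ^ h * (((K : ℝ) + 1) * (edgeBoundary A).card / A.card)
        * (pull q K m A).card) := by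
  have hQ : (0 : ℝ) < q := by exact_mod_cast hq0
  have ha : (0 : ℝ) < A.card := by exact_mod_cast Finset.card_pos.2 hA
  have hk : (0 : ℝ) < (K : ℝ) + 1 := by positivity
  set a : ℝ := (A.card : ℝ) with hadef
  set Q : ℝ := (q : ℝ) with hQdef
  set T : ℝ := Q + ((K : ℝ) + 1) with hT
  set k : ℝ := (K : ℝ) + 1 with hkdef
  have hTpos : 0 < T := by positivity
  set b : ℝ := ((pull q K m A).card : ℝ) with hb
  have hTQ : T ^ n ≤ 11 / 10 * Q ^ n := by
    rw [div_pow, div_le_iff₀ (by positivity)] at hκ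
    exact hκ
  have hb1 : Q ^ n * a ≤ b := by
    have := card_pull_ge hq hq0 A
    rw [hQdef, hadef, hb]; exact_mod_cast this
  have hb2 : b ≤ T ^ n * a := by
    have := card_pull_le hq hq0 A
    have h2 : b ≤ ((q : ℝ) + ((K : ℝ) + 1)) ^ n * (A.card : ℝ) := by
      rw [hb]; exact_mod_cast this
    exact h2
  have hbpos : 0 < b := lt_of_lt_of_le (by positivity) hb1
  have hcard : (2 : ℝ) ^ Fintype.card (Fin n × Fin m) = ((2 : ℝ) ^ m) ^ n := by
    rw [Fintype.card_prod, Fintype.card_fin, Fintype.card_fin, ← pow_mul, mul_comm]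
  rw [hcard]
  have hm1 : Q * k ≤ 2 ^ m := by
    have : q * (K + 1) ≤ 2 ^ m := by rw [hq]; exact Nat.div_mul_le_self _ _
    rw [hQdef, hkdef]; exact_mod_cast this
  have hm2 : (2 : ℝ) ^ m ≤ T * k := by
    have h1 : 2 ^ m < (q + 1) * (K + 1) := by
      rw [hq]; exact Nat.lt_mul_of_div_lt (Nat.lt_succ_self _) (Nat.succ_pos _)
    have h2 : (2 : ℝ) ^ m ≤ (Q + 1) * k := by
      rw [hQdef, hkdef]; exact_mod_cast h1.le
    have h3 : (Q + 1) * k ≤ T * k := by
      apply mul_le_mul_of_nonneg_right _ hk.le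
      rw [hT, hkdef]
      have : (0 : ℝ) ≤ K := Nat.cast_nonneg K
      linarith
    linarith
  have hN1 : Q ^ n * k ^ n ≤ ((2 : ℝ) ^ m) ^ n := by
    rw [← mul_pow]; exact pow_le_pow_left₀ (by positivity) hm1 n
  have hN2 : ((2 : ℝ) ^ m) ^ n ≤ T ^ n * k ^ n := by
    rw [← mul_pow]; exact pow_le_pow_left₀ (by positivity) hm2 n
  have hNpos : (0 : ℝ) < ((2 : ℝ) ^ m) ^ n := by positivity
  refine ⟨?_, ?_, ?_, ?_, ?_⟩
  · rw [← Finset.card_pos]
    have : (0 : ℝ) < ((pull q K m A).card : ℝ) := hbpos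
    exact_mod_cast this
  · rw [div_le_iff₀ hNpos]
    calc b ≤ T ^ n * a := hb2
      _ ≤ 11 / 10 * Q ^ n * a := by gcongr
      _ = 11 / 10 * (a / k ^ n) * (Q ^ n * k ^ n) := by field_simp
      _ ≤ 11 / 10 * (a / k ^ n) * ((2 : ℝ) ^ m) ^ n := by gcongr
  · rw [le_div_iff₀ hNpos]
    calc 10 / 11 * (a / k ^ n) * ((2 : ℝ) ^ m) ^ n
        ≤ 10 / 11 * (a / k ^ n) * (T ^ n * k ^ n) := by gcongr
      _ = 10 / 11 * a * T ^ n := by field_simp
      _ ≤ 10 / 11 * a * (11 / 10 * Q ^ n) := by gcongr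
      _ = Q ^ n * a := by ring
      _ ≤ b := hb1
  · calc T ^ n * k ^ n ≤ 11 / 10 * Q ^ n * k ^ n := by gcongr
      _ = 11 / 10 * (Q ^ n * k ^ n) := by ring
      _ ≤ _ := by gcongr
  · intro h hh
    have h1 := low_bd hq hq0 h A
    have h2 : ((∑ p ∈ low n m h,
        ((pull q K m A).filter (fun z => fl p z ∉ pull q K m A)).card : ℕ) : ℝ)
        ≤ 2 * 2 ^ (m - h) * T ^ (n - 1) * (edgeBoundary A).card := by
      rw [hT, hQdef, hkdef]
      exact_mod_cast h1
    refine h2.trans ?_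
    have h3 : (2 : ℝ) ^ (m - h) ≤ T * k / 2 ^ h := by
      rw [le_div_iff₀ (by positivity), ← pow_add, Nat.sub_add_cancel hh]
      exact hm2
    have hTn : T ^ n = T * T ^ (n - 1) := by
      rw [← pow_succ', Nat.sub_add_cancel hn]
    set e : ℝ := ((edgeBoundary A).card : ℝ) with he
    have he0 : 0 ≤ e := Nat.cast_nonneg _
    calc 2 * 2 ^ (m - h) * T ^ (n - 1) * e
        ≤ 2 * (T * k / 2 ^ h) * T ^ (n - 1) * e := by gcongr
      _ = 2 / 2 ^ h * (k * e / a) * (T ^ n * a) := by rw [hTn]; field_simp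
      _ ≤ 2 / 2 ^ h * (k * e / a) * (11 / 10 * Q ^ n * a) := by gcongr
      _ = 22 / 10 / 2 ^ h * (k * e / a) * (Q ^ n * a) := by ring
      _ ≤ _ := by gcongr

theorem core {L : ℝ} (hL : 0 < L) {K : ℕ} (hn : 0 < n)
    {A : Finset (Fin n → Fin (K + 1))} (hA : A.Nonempty)
    (hα : (A.card : ℝ) / ((K : ℝ) + 1) ^ n ≤ 1 / 2)
    (hbd : ∀ r ∈ Finset.Icc 1 n, ((edgeBoundary A).card : ℝ)
      ≤ L * ((A.card : ℝ) ^ (1 - 1 / (r : ℝ)) * r * ((K : ℝ) + 1) ^ ((n : ℝ) / r - 1))) :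
    ∃ m q : ℕ, q = 2 ^ m / (K + 1) ∧ 0 < q ∧ (((q : ℝ) + (K + 1)) / q) ^ n ≤ 11 / 10 ∧
      ∃ F : Finset (Fin n × Fin m), ∃ c : Fin n × Fin m → Bool,
        ((Fintype.card (Fin n × Fin m) : ℝ) - F.card) * Real.log 2 ≤ L1f L * ell A ∧
        4 / 3 * (((pull q K m A).card : ℝ) / 2 ^ Fintype.card (Fin n × Fin m))
          ≤ ((supp (pull q K m A) F c).card : ℝ) / 2 ^ F.card := by
  have ha : (0 : ℝ) < A.card := by exact_mod_cast Finset.card_pos.2 hA
  have hk : (0 : ℝ) < (K : ℝ) + 1 := by positivity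
  have hnR : (0 : ℝ) < n := by exact_mod_cast hn
  set ℓ := ell A with hℓ
  have hlα : Real.log ((A.card : ℝ) / ((K : ℝ) + 1) ^ n) = -ℓ := by
    rw [Real.log_div ha.ne' (by positivity), Real.log_pow, hℓ]; unfold ell; ring
  have hlog2 : 0.69 < Real.log 2 := by have := Real.log_two_gt_d9; linarith
  have hlog2' : Real.log 2 < 0.7 := by have := Real.log_two_lt_d9; linarith
  have hℓ2 : Real.log 2 ≤ ℓ := by
    have h1 := Real.log_le_log (by positivity) hα
    rw [hlα, Real.log_div (by norm_num) (by norm_num), Real.log_one] at h1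
    linarith
  have hℓ0 : 0 < ℓ := by linarith
  set σ : ℝ := ((K : ℝ) + 1) * (edgeBoundary A).card / A.card with hσ
  have hσ0 : 0 ≤ σ := by positivity
  have hσr : ∀ r ∈ Finset.Icc 1 n, σ ≤ L * (r * Real.exp (ℓ / r)) := by
    intro r hr
    have hr0 : (0 : ℝ) < r := by exact_mod_cast (Finset.mem_Icc.1 hr).1
    have h1 := hbd r hr
    rw [rterm ha hk hr0] at h1
    rw [hσ, div_le_iff₀ ha, hℓ]
    unfold ell
    calc ((K : ℝ) + 1) * (edgeBoundary A).card ≤ ((K : ℝ) + 1) * (L * (A.card / ((K : ℝ) + 1)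
          * (r * Real.exp ((n * Real.log ((K : ℝ) + 1) - Real.log A.card) / r)))) := by gcongr
      _ = _ := by field_simp
  have hlog11 : Real.log (11 / 10) ≤ 1 / 10 := by
    have := Real.log_le_sub_one_of_pos (show (0:ℝ) < 11 / 10 by norm_num)
    linarith
  have hlog1011 : -(1 / 10) ≤ Real.log (10 / 11) := by
    have : Real.log (10 / 11) = - Real.log (11 / 10) := by
      rw [← Real.log_inv]; norm_num
    rw [this]; linarith
  have hlog43 : Real.log (4 / 3) ≤ 1 / 3 := by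
    have := Real.log_le_sub_one_of_pos (show (0:ℝ) < 4 / 3 by norm_num)
    linarith
  have hL20 : (1 : ℝ) ≤ 1 + 20 * L := by linarith
  have hε0 : 0 < epsL (2 * (1 + 20 * L)) := epsL_pos (by linarith)
  have hpart1 : 0 ≤ 4 * (1 + 20 * L) / epsL (2 * (1 + 20 * L)) := by positivity
  have hlogL : 0 ≤ Real.log (2 + 12 * L) := Real.log_nonneg (by linarith)
  by_cases hcase : ℓ ≤ n
  · -- first case
    obtain ⟨m, -, hq0, hκ⟩ := choose_m n K 0
    refine ⟨m, 2 ^ m / (K + 1), rfl, hq0, hκ, ?_⟩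
    obtain ⟨hBne, hα1, hα2, -, hlow⟩ := blow_facts rfl hq0 hA hn hκ
    set B := pull (2 ^ m / (K + 1)) K m A with hB
    have hb : (0 : ℝ) < B.card := by exact_mod_cast Finset.card_pos.2 hBne
    set N := Fintype.card (Fin n × Fin m) with hN
    set ℓ' : ℝ := N * Real.log 2 - Real.log B.card with hℓ'
    have hlα' : Real.log ((B.card : ℝ) / 2 ^ N) = -ℓ' := by
      rw [Real.log_div hb.ne' (by positivity), Real.log_pow, hℓ']; ring
    have hd1 : -ℓ' ≤ Real.log (11 / 10) + -ℓ := by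
      rw [← hlα', ← hlα, ← Real.log_mul (by norm_num) (by positivity)]
      exact Real.log_le_log (by positivity) hα1
    have hd2 : Real.log (10 / 11) + -ℓ ≤ -ℓ' := by
      rw [← hlα', ← hlα, ← Real.log_mul (by norm_num) (by positivity)]
      exact Real.log_le_log (by positivity) hα2
    -- sigma
    set r := ⌈ℓ⌉₊ with hr
    have hr1 : 1 ≤ r := Nat.one_le_iff_ne_zero.2 (by
      rw [hr]; exact (Nat.ceil_pos.2 hℓ0).ne')
    have hrn : r ≤ n := Nat.ceil_le.2 hcase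
    have hrR : (0 : ℝ) < r := by exact_mod_cast hr1
    have hle : ℓ ≤ r := Nat.le_ceil ℓ
    have hlt : (r : ℝ) < ℓ + 1 := Nat.ceil_lt_add_one hℓ0.le
    have hσ1 := hσr r (Finset.mem_Icc.2 ⟨hr1, hrn⟩)
    have hexp : Real.exp (ℓ / r) ≤ 2.7183 := by
      have : ℓ / r ≤ 1 := (div_le_one hrR).2 hle
      refine (Real.exp_le_exp.2 this).trans ?_
      have := Real.exp_one_lt_d9; linarith
    have hσ7 : σ ≤ 7 * L * ℓ := by
      calc σ ≤ L * (r * Real.exp (ℓ / r)) := hσ1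
        _ ≤ L * ((ℓ + 1) * 2.7183) := by gcongr
        _ ≤ L * (7 * ℓ) := by
            apply mul_le_mul_of_nonneg_left _ hL.le
            linarith
        _ = 7 * L * ℓ := by ring
    have hbdB : (bd B : ℝ) ≤ (1 + 20 * L) * B.card * (N * Real.log 2 - Real.log B.card) := by
      have h1 := hlow 0 (Nat.zero_le _)
      rw [low_zero] at h1
      have h2 : (bd B : ℝ) ≤ 22 / 10 / 2 ^ 0 * σ * B.card := h1
      refine h2.trans ?_
      rw [← hℓ', pow_zero, div_one]
      have hℓℓ' : ℓ ≤ 1.17 * ℓ' := by linarith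
      have hℓ'0 : 0 ≤ ℓ' := by linarith
      calc 22 / 10 * σ * (B.card : ℝ) ≤ 22 / 10 * (7 * L * ℓ) * B.card := by gcongr
        _ ≤ 22 / 10 * (7 * L * (1.17 * ℓ')) * B.card := by gcongr
        _ = 18.018 * (L * ℓ' * B.card) := by ring
        _ ≤ 20 * (L * ℓ' * B.card) := by
            apply mul_le_mul_of_nonneg_right _ (by positivity)
            norm_num
        _ ≤ (1 + 20 * L) * B.card * ℓ' := by
            have : 0 ≤ (B.card : ℝ) * ℓ' := by positivity
            have e : (1 + 20 * L) * B.card * ℓ' = B.card * ℓ' + 20 * (L * ℓ' * B.card) := by ring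
            rw [e]; linarith
    obtain ⟨F, c, h1, h2⟩ := exists_dense' (L0 := 1 + 20 * L) (δ := 1 / 3) hL20 (by norm_num) hBne
      (by
        calc (1 + 1 / 3 : ℝ) ^ 2 * ((B.card : ℝ) / 2 ^ N)
            ≤ (1 + 1 / 3 : ℝ) ^ 2 * (11 / 10 * (1 / 2)) := by
              gcongr
              exact hα1.trans (by gcongr)
          _ ≤ 1 := by norm_num) hbdB
    refine ⟨F, c, ?_, by
      have : (4 / 3 : ℝ) = 1 + 1 / 3 := by norm_num
      rw [this]; exact h2⟩
    rw [← hℓ'] at h1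
    have hℓ'2 : ℓ' ≤ 2 * ℓ := by linarith
    have h3 : (N : ℝ) - F.card ≤ 4 * (1 + 20 * L) / epsL (2 * (1 + 20 * L)) * ℓ := by
      calc (N : ℝ) - F.card ≤ 2 * (1 + 20 * L) / epsL (2 * (1 + 20 * L)) * ℓ' := h1
        _ ≤ 2 * (1 + 20 * L) / epsL (2 * (1 + 20 * L)) * (2 * ℓ) := by gcongr
        _ = _ := by ring
    have h4 : 0 ≤ (N : ℝ) - F.card := by
      have : (F.card : ℝ) ≤ N := by exact_mod_cast Finset.card_le_univ F
      linarith
    unfold L1f
    have h5 : 0 ≤ (1 + Real.log (2 + 12 * L)) * ℓ := by positivity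
    calc ((N : ℝ) - F.card) * Real.log 2 ≤ ((N : ℝ) - F.card) * 1 :=
          mul_le_mul_of_nonneg_left (by linarith) h4
      _ ≤ 4 * (1 + 20 * L) / epsL (2 * (1 + 20 * L)) * ℓ := by rw [mul_one]; exact h3
      _ ≤ (4 * (1 + 20 * L) / epsL (2 * (1 + 20 * L)) + (1 + Real.log (2 + 12 * L))) * ℓ := by
          rw [add_mul]; linarith
  · -- second case
    push Not at hcase
    set ρ : ℝ := ℓ / n with hρ
    have hρ1 : 1 < ρ := by rw [hρ, lt_div_iff₀ hnR]; linarith
    have hX1 : (1 : ℝ) ≤ 1 + 6 * L * Real.exp ρ := by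
      have : 0 < 6 * L * Real.exp ρ := by positivity
      linarith
    obtain ⟨h0, hh1, hh2⟩ := exists_nat_pow_near hX1 (by norm_num : (1:ℝ) < 2)
    set h := h0 + 1 with hh
    obtain ⟨m, hhm, hq0, hκ⟩ := choose_m n K h
    refine ⟨m, 2 ^ m / (K + 1), rfl, hq0, hκ, ?_⟩
    obtain ⟨hBne, hα1, hα2, -, hlow⟩ := blow_facts rfl hq0 hA hn hκ
    set B := pull (2 ^ m / (K + 1)) K m A with hB
    have hb : (0 : ℝ) < B.card := by exact_mod_cast Finset.card_pos.2 hBne
    set N := Fintype.card (Fin n × Fin m) with hN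
    set ℓ' : ℝ := N * Real.log 2 - Real.log B.card with hℓ'
    have hlα' : Real.log ((B.card : ℝ) / 2 ^ N) = -ℓ' := by
      rw [Real.log_div hb.ne' (by positivity), Real.log_pow, hℓ']; ring
    have hd1 : -ℓ' ≤ Real.log (11 / 10) + -ℓ := by
      rw [← hlα', ← hlα, ← Real.log_mul (by norm_num) (by positivity)]
      exact Real.log_le_log (by positivity) hα1
    have hσn := hσr n (Finset.mem_Icc.2 ⟨hn, le_rfl⟩)
    rw [← hρ] at hσn
    have h2h : (0 : ℝ) < 2 ^ h := by positivity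
    have hexist : ∃ c : Fin n × Fin m → Bool,
        4 / 3 * ((B.card : ℝ) / 2 ^ N) ≤ ((supp B (low n m h) c).card : ℝ) / 2 ^ (low n m h).card := by
      by_contra hc
      push Not at hc
      have h1 := low_bound hBne (low n m h) (θ := 4 / 3) (by norm_num) (fun c => (hc c).le)
      rw [← hN, ← hℓ', le_div_iff₀ hb] at h1
      have h2 := hlow h hhm
      have h3 : 22 / 10 / 2 ^ h * σ ≤ 22 / 60 * n := by
        have h4 : 6 * L * Real.exp ρ ≤ 2 ^ h := by linarith
        have h5 : σ ≤ n * (2 ^ h / 6) := by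
          calc σ ≤ L * (n * Real.exp ρ) := hσn
            _ = n * (6 * L * Real.exp ρ / 6) := by ring
            _ ≤ n * (2 ^ h / 6) := by gcongr
        calc 22 / 10 / 2 ^ h * σ ≤ 22 / 10 / 2 ^ h * (n * (2 ^ h / 6)) := by gcongr
          _ = 22 / 60 * n := by field_simp; norm_num
      have h6 : (ℓ' - Real.log (4 / 3)) * B.card ≤ 22 / 60 * n * B.card :=
        h1.trans (h2.trans (by gcongr))
      have h7 : ℓ' - Real.log (4 / 3) ≤ 22 / 60 * n := le_of_mul_le_mul_right h6 hb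
      have hn1 : (1 : ℝ) ≤ n := by exact_mod_cast hn
      linarith
    obtain ⟨c, hc⟩ := hexist
    refine ⟨low n m h, c, ?_, hc⟩
    have hcodim : (N : ℝ) - (low n m h).card = n * h := by
      rw [card_low n m h hhm, hN, Fintype.card_prod, Fintype.card_fin, Fintype.card_fin]
      rw [Nat.cast_mul, Nat.cast_mul, Nat.cast_sub hhm]
      ring
    rw [hcodim]
    have h8 : (h : ℝ) * Real.log 2 ≤ Real.log (2 + 12 * L) + ρ := by
      rw [← Real.log_pow, ← Real.log_exp ρ, ← Real.log_mul (by positivity) (Real.exp_pos _).ne']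
      apply Real.log_le_log h2h
      have h9 : (2:ℝ) ^ h = 2 * 2 ^ h0 := by rw [hh, pow_succ]; ring
      rw [h9]
      have h10 : 1 ≤ Real.exp ρ := Real.one_le_exp (by linarith)
      rw [add_mul]
      linarith
    have h11 : (n : ℝ) * h * Real.log 2 ≤ n * Real.log (2 + 12 * L) + ℓ := by
      calc (n : ℝ) * h * Real.log 2 = n * (h * Real.log 2) := by ring
        _ ≤ n * (Real.log (2 + 12 * L) + ρ) := by gcongr
        _ = n * Real.log (2 + 12 * L) + ℓ := by rw [hρ]; field_simp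
    have h12 : (n : ℝ) * Real.log (2 + 12 * L) ≤ ℓ * Real.log (2 + 12 * L) := by gcongr
    unfold L1f
    have h13 : 0 ≤ 4 * (1 + 20 * L) / epsL (2 * (1 + 20 * L)) * ℓ := by positivity
    rw [add_mul, add_mul]
    linarith

theorem conv {K : ℕ} (hn : 0 < n) {A : Finset (Fin n → Fin (K + 1))} (hA : A.Nonempty)
    (hα : (A.card : ℝ) / ((K : ℝ) + 1) ^ n ≤ 1 / 2) {L1 : ℝ} {q : ℕ}
    (hq : q = 2 ^ m / (K + 1)) (hq0 : 0 < q)
    (hκ : (((q : ℝ) + (K + 1)) / q) ^ n ≤ 11 / 10)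
    {F : Finset (Fin n × Fin m)} {c : Fin n × Fin m → Bool}
    (h1 : ((Fintype.card (Fin n × Fin m) : ℝ) - F.card) * Real.log 2 ≤ L1 * ell A)
    (h2 : 4 / 3 * (((pull q K m A).card : ℝ) / 2 ^ Fintype.card (Fin n × Fin m))
          ≤ ((supp (pull q K m A) F c).card : ℝ) / 2 ^ F.card) :
    ∃ S : Fin n → Finset (Fin (K + 1)),
      ((A.card : ℝ) / ((K : ℝ) + 1) ^ n) ^ (L1 + 5)
        ≤ ((Fintype.piFinset S).card : ℝ) / ((K : ℝ) + 1) ^ n ∧
      (1 + 1 / 10) * ((A.card : ℝ) / ((K : ℝ) + 1) ^ n)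
        ≤ ((A ∩ Fintype.piFinset S).card : ℝ) / ((Fintype.piFinset S).card : ℝ) := by
  obtain ⟨hBne, -, hα2, hT, -⟩ := blow_facts hq hq0 hA hn hκ
  have ha : (0 : ℝ) < A.card := by exact_mod_cast Finset.card_pos.2 hA
  have hk : (0 : ℝ) < (K : ℝ) + 1 := by positivity
  by_contra hc
  push Not at hc
  set α : ℝ := (A.card : ℝ) / ((K : ℝ) + 1) ^ n with hαdef
  have hα0 : 0 < α := by positivity
  have hlα : Real.log α = - ell A := by
    rw [hαdef, Real.log_div ha.ne' (by positivity), Real.log_pow]; unfold ell; ring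
  set N := Fintype.card (Fin n × Fin m) with hN
  set β : ℝ := α ^ (L1 + 5) with hβ
  have hβ0 : 0 < β := Real.rpow_pos_of_pos hα0 _
  have hkn : (0 : ℝ) < ((K : ℝ) + 1) ^ n := by positivity
  have hpt : ∀ t : Fin n → Fin (q + (K + 1)),
      ((A ∩ Fintype.piFinset (lev q K F c (q + (K + 1)) t)).card : ℝ)
        ≤ (1 + 1 / 10) * α
          * ((Finset.univ ∩ Fintype.piFinset (lev q K F c (q + (K + 1)) t)).card : ℝ)
          + β * ((K : ℝ) + 1) ^ n := by
    intro t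
    set C := Fintype.piFinset (lev q K F c (q + (K + 1)) t) with hC
    rw [Finset.univ_inter]
    by_cases hm : β ≤ (C.card : ℝ) / ((K : ℝ) + 1) ^ n
    · have h3 := hc _ hm
      have hCpos : (0 : ℝ) < C.card := by
        have : 0 < (C.card : ℝ) / ((K : ℝ) + 1) ^ n := lt_of_lt_of_le hβ0 hm
        rcases Nat.eq_zero_or_pos C.card with h0 | h0
        · rw [h0] at this; simp at this
        · exact_mod_cast h0
      rw [← hC, div_lt_iff₀ hCpos] at h3
      have : 0 ≤ β * ((K : ℝ) + 1) ^ n := by positivity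
      linarith
    · push Not at hm
      rw [div_lt_iff₀ hkn] at hm
      have h4 : ((A ∩ C).card : ℝ) ≤ C.card := by
        exact_mod_cast Finset.card_le_card Finset.inter_subset_right
      have : 0 ≤ (1 + 1 / 10) * α * (C.card : ℝ) := by positivity
      linarith
  have hsum := Finset.sum_le_sum (fun t (_ : t ∈ (Finset.univ : Finset (Fin n → Fin (q + (K + 1)))))
    => hpt t)
  rw [Finset.sum_add_distrib, ← Finset.mul_sum, Finset.sum_const, Finset.card_univ,
    Fintype.card_fun, Fintype.card_fin, Fintype.card_fin] at hsum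
  have e1 : (∑ t : Fin n → Fin (q + (K + 1)),
      ((A ∩ Fintype.piFinset (lev q K F c (q + (K + 1)) t)).card : ℝ))
      = ((supp (pull q K m A) F c).card : ℝ) := by
    rw [card_supp_pull, layer_cake hq hq0]; push_cast; rfl
  have e2 : (∑ t : Fin n → Fin (q + (K + 1)),
      ((Finset.univ ∩ Fintype.piFinset (lev q K F c (q + (K + 1)) t)).card : ℝ))
      = 2 ^ F.card := by
    have h3 := card_free F c q K
    rw [layer_cake hq hq0] at h3
    have h4 : ((2 ^ F.card : ℕ) : ℝ) = ((∑ t : Fin n → Fin (q + (K + 1)),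
      (Finset.univ ∩ Fintype.piFinset (lev q K F c (q + (K + 1)) t)).card : ℕ) : ℝ) := by
      rw [h3]
    push_cast at h4
    exact h4.symm
  rw [e1, e2, nsmul_eq_mul] at hsum
  push_cast at hsum
  have h2F : (0 : ℝ) < 2 ^ F.card := by positivity
  have hNF : (2 : ℝ) ^ N ≤ 2 ^ F.card * Real.exp (L1 * ell A) := by
    have hF : F.card ≤ N := Finset.card_le_univ F
    have h5 : (2 : ℝ) ^ N = 2 ^ F.card * 2 ^ (N - F.card) := by
      rw [← pow_add]; congr 1; omega
    rw [h5]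
    apply mul_le_mul_of_nonneg_left _ h2F.le
    have h6 : (2 : ℝ) ^ (N - F.card) = Real.exp ((N - F.card : ℕ) * Real.log 2) := by
      rw [Real.exp_nat_mul, Real.exp_log (by norm_num)]
    rw [h6]
    apply Real.exp_le_exp.2
    rw [Nat.cast_sub hF]
    exact h1
  have hβe : β * Real.exp (L1 * ell A) = α ^ 5 := by
    rw [hβ, Real.rpow_def_of_pos hα0, ← Real.exp_add, hlα]
    have h7 : α ^ 5 = Real.exp (5 * Real.log α) := by
      rw [show (5 : ℝ) = ((5 : ℕ) : ℝ) by norm_num, Real.exp_nat_mul, Real.exp_log hα0]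
    rw [h7, hlα]
    congr 1
    ring
  have hα5 : α ^ 5 ≤ α / 16 := by
    have h8 : α ^ 4 ≤ (1 / 2) ^ 4 := pow_le_pow_left₀ hα0.le hα 4
    have : α ^ 5 = α * α ^ 4 := by ring
    rw [this]
    nlinarith
  have hfin : ((q : ℝ) + ((K : ℝ) + 1)) ^ n * (β * ((K : ℝ) + 1) ^ n)
      ≤ 11 / 10 * (2 ^ F.card * (α / 16)) := by
    calc ((q : ℝ) + ((K : ℝ) + 1)) ^ n * (β * ((K : ℝ) + 1) ^ n)
        = β * (((q : ℝ) + ((K : ℝ) + 1)) ^ n * ((K : ℝ) + 1) ^ n) := by ring
      _ ≤ β * (11 / 10 * 2 ^ N) := by gcongr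
      _ ≤ β * (11 / 10 * (2 ^ F.card * Real.exp (L1 * ell A))) := by gcongr
      _ = 11 / 10 * (2 ^ F.card * (β * Real.exp (L1 * ell A))) := by ring
      _ = 11 / 10 * (2 ^ F.card * α ^ 5) := by rw [hβe]
      _ ≤ _ := by gcongr
  rw [le_div_iff₀ h2F] at h2
  have h9 : 4 / 3 * (10 / 11 * α) * 2 ^ F.card
      ≤ 4 / 3 * (((pull q K m A).card : ℝ) / 2 ^ N) * 2 ^ F.card := by gcongr
  have h10 : 0 < α * 2 ^ F.card := by positivity
  nlinarith

end Pool.Agent.TH385.KKGrid
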