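import Pool.Agent.TH385.KK.Final

/-!
Binary expansion map from the discrete cube onto an interval.
-/

set_option autoImplicit false
set_option linter.unusedSectionVars false

noncomputable section

namespace Pool.Agent.TH385.KKGrid

open Finset Pool.Agent.TH385.KK

variable {m : ℕ}

/-- binary digits to numbers. -/
def En (m : ℕ) : (Fin m → Bool) ≃ Fin (2 ^ m) :=
  (Equiv.arrowCongr (Equiv.refl (Fin m)) finTwoEquiv.symm).trans finFunctionFinEquiv

/-- the number with the given binary digits. -/
def val (w : Fin m → Bool) : ℕ := (En m w : ℕ)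

lemma val_eq (w : Fin m → Bool) : val w = ∑ j, (if w j then 2 ^ (j : ℕ) else 0) := by
  unfold val En
  rw [Equiv.trans_apply, finFunctionFinEquiv_apply]
  refine Finset.sum_congr rfl (fun j _ => ?_)
  simp only [Equiv.arrowCongr_apply, Equiv.refl_symm, Equiv.coe_refl, Function.comp_id,
    Function.comp_apply]
  cases h : w j <;> simp [finTwoEquiv]

lemma val_lt (w : Fin m → Bool) : val w < 2 ^ m := (En m w).2

lemma val_inj : Function.Injective (val (m := m)) := by
  intro w w' h
  exact (En m).injective (Fin.ext h)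

lemma exists_val {y : ℕ} (hy : y < 2 ^ m) : ∃ w : Fin m → Bool, val w = y :=
  ⟨(En m).symm ⟨y, hy⟩, by unfold val; rw [Equiv.apply_symm_apply]⟩

lemma val_fl (j : Fin m) (w : Fin m → Bool) :
    val (fl j w) + (if w j then 2 ^ (j : ℕ) else 0) = val w + (if w j then 0 else 2 ^ (j : ℕ)) := by
  rw [val_eq, val_eq, ← Finset.add_sum_erase Finset.univ
      (fun x => if fl j w x then 2 ^ (x : ℕ) else 0) (Finset.mem_univ j),
    ← Finset.add_sum_erase Finset.univ (fun x => if w x then 2 ^ (x : ℕ) else 0)
      (Finset.mem_univ j)]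
  have : ∑ x ∈ Finset.univ.erase j, (if fl j w x then 2 ^ (x : ℕ) else 0)
      = ∑ x ∈ Finset.univ.erase j, (if w x then 2 ^ (x : ℕ) else 0) := by
    refine Finset.sum_congr rfl (fun x hx => ?_)
    rw [fl_ne (Finset.ne_of_mem_erase hx)]
  rw [this, fl_same]
  cases h : w j <;> simp <;> omega

lemma sep_card (s : ℕ) (j : Fin m) :
    ((Finset.univ.filter (fun w : Fin m → Bool => (val w < s ∧ s ≤ val (fl j w)) ∨
      (val (fl j w) < s ∧ s ≤ val w))).card) ≤ 2 * 2 ^ (j : ℕ) := by
  have hv := fun w => val_fl j w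
  generalize 2 ^ (j : ℕ) = t at hv ⊢
  have h1 : (Finset.univ.filter (fun w : Fin m → Bool => val w < s ∧ s ≤ val (fl j w))).card
      ≤ t := by
    calc _ ≤ (Finset.Ico (s - t) s).card := by
          apply Finset.card_le_card_of_injOn val
          · intro w hw
            have hw' := (Finset.mem_filter.1 (Finset.mem_coe.1 hw)).2
            have := hv w
            apply Finset.mem_coe.2
            rw [Finset.mem_Ico]
            cases h : w j <;> simp [h] at this <;> omega
          · intro w _ w' _ h; exact val_inj h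
      _ ≤ t := by rw [Nat.card_Ico]; omega
  have h2 : (Finset.univ.filter (fun w : Fin m → Bool => val (fl j w) < s ∧ s ≤ val w)).card
      ≤ t := by
    calc _ ≤ (Finset.Ico s (s + t)).card := by
          apply Finset.card_le_card_of_injOn val
          · intro w hw
            have hw' := (Finset.mem_filter.1 (Finset.mem_coe.1 hw)).2
            have := hv w
            apply Finset.mem_coe.2
            rw [Finset.mem_Ico]
            cases h : w j <;> simp [h] at this <;> omega
          · intro w _ w' _ h; exact val_inj h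
      _ ≤ t := by rw [Nat.card_Ico]; omega
  rw [Finset.filter_or]
  refine (Finset.card_union_le _ _).trans ?_
  omega

/-- the cell map. -/
def phi (q K : ℕ) (w : Fin m → Bool) : Fin (K + 1) := ⟨min (val w / q) K, by omega⟩

lemma phi_val (q K : ℕ) (w : Fin m → Bool) : (phi q K w : ℕ) = min (val w / q) K := rfl

lemma cell_le {q K : ℕ} (hq : q = 2 ^ m / (K + 1)) (hq0 : 0 < q) (a : Fin (K + 1)) :
    (Finset.univ.filter (fun w : Fin m → Bool => phi q K w = a)).card ≤ q + (K + 1) := by
  calc _ ≤ (Finset.Ico (a * q) (a * q + (q + (K + 1)))).card := by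
        apply Finset.card_le_card_of_injOn val
        · intro w hw
          have hw' := (Finset.mem_filter.1 (Finset.mem_coe.1 hw)).2
          have h1 : min (val w / q) K = a := by rw [← phi_val, hw']
          apply Finset.mem_coe.2
          rw [Finset.mem_Ico]
          have h2 : (a : ℕ) ≤ val w / q := by omega
          have h3 : (a : ℕ) * q ≤ val w := (Nat.le_div_iff_mul_le hq0).1 h2
          refine ⟨h3, ?_⟩
          by_cases hc : val w / q ≤ K
          · have h4 : val w / q = a := by omega
            have h5 : val w < (a + 1) * q := by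
              rw [← h4]; exact Nat.lt_mul_of_div_lt (Nat.lt_succ_self _) hq0
            have h6 : (a + 1 : ℕ) * q = a * q + q := by ring
            omega
          · have h4 : (a : ℕ) = K := by omega
            have h5 := val_lt w
            have h6 : 2 ^ m < (q + 1) * (K + 1) := by
              rw [hq]; exact Nat.lt_mul_of_div_lt (Nat.lt_succ_self _) (Nat.succ_pos _)
            have h7 : (q + 1) * (K + 1) = K * q + q + (K + 1) := by ring
            rw [h4]; omega
        · intro w _ w' _ h; exact val_inj h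
    _ = q + (K + 1) := by rw [Nat.card_Ico]; omega

lemma le_cell {q K : ℕ} (hq : q = 2 ^ m / (K + 1)) (hq0 : 0 < q) (a : Fin (K + 1)) :
    q ≤ (Finset.univ.filter (fun w : Fin m → Bool => phi q K w = a)).card := by
  have hle : q * (K + 1) ≤ 2 ^ m := by rw [hq]; exact Nat.div_mul_le_self _ _
  have ha : (a : ℕ) ≤ K := Nat.lt_succ_iff.1 a.2
  have hlt : ∀ y ∈ Finset.Ico ((a : ℕ) * q) (a * q + q), y < 2 ^ m := by
    intro y hy
    rw [Finset.mem_Ico] at hy
    have h1 : (a : ℕ) * q + q = (a + 1) * q := by ring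
    have h2 : (a + 1 : ℕ) * q ≤ (K + 1) * q := Nat.mul_le_mul_right q (by omega)
    have h3 : (K + 1) * q = q * (K + 1) := by ring
    omega
  calc q = (Finset.Ico ((a : ℕ) * q) (a * q + q)).card := by rw [Nat.card_Ico]; omega
    _ ≤ (Finset.image val
          (Finset.univ.filter (fun w : Fin m → Bool => phi q K w = a))).card := by
        apply Finset.card_le_card
        intro y hy
        obtain ⟨w, hw⟩ := exists_val (hlt y hy)
        rw [Finset.mem_Ico] at hy
        rw [Finset.mem_image]
        refine ⟨w, ?_, hw⟩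
        rw [Finset.mem_filter]
        refine ⟨Finset.mem_univ _, ?_⟩
        apply Fin.ext
        rw [phi_val, hw]
        have h1 : y / q = a := by
          apply Nat.div_eq_of_lt_le
          · exact hy.1
          · have : (a + 1 : ℕ) * q = a * q + q := by ring
            rw [this]; exact hy.2
        rw [h1]; omega
    _ ≤ _ := Finset.card_image_le

/-- discrete intermediate value. -/
lemma exists_switch {p : ℕ → Prop} {a b : ℕ} (hab : a ≤ b) (ha : p a) (hb : ¬ p b) :
    ∃ c, a ≤ c ∧ c < b ∧ p c ∧ ¬ p (c + 1) := by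
  induction b, hab using Nat.le_induction with
  | base => exact absurd ha hb
  | succ b hab ih =>
    by_cases h : p b
    · exact ⟨b, hab, Nat.lt_succ_self b, h, hb⟩
    · obtain ⟨c, h1, h2, h3, h4⟩ := ih h
      exact ⟨c, h1, h2.trans (Nat.lt_succ_self b), h3, h4⟩

/-- one dimensional boundary. -/
def bd1 {K : ℕ} (p : Fin (K + 1) → Prop) [DecidablePred p] : ℕ :=
  (Finset.univ.filter (fun c : Fin K => ¬ (p c.castSucc ↔ p c.succ))).card

lemma switch_sep {q K : ℕ} (hq0 : 0 < q) (p : Fin (K + 1) → Prop) (w w' : Fin m → Bool)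
    (h1 : p (phi q K w)) (h2 : ¬ p (phi q K w')) :
    ∃ c : Fin K, ¬ (p c.castSucc ↔ p c.succ) ∧
      ((val w < (c + 1) * q ∧ (c + 1) * q ≤ val w') ∨
        (val w' < (c + 1) * q ∧ (c + 1) * q ≤ val w)) := by
  set P : ℕ → Prop := fun t => ∃ h : t < K + 1, p ⟨t, h⟩ with hP
  have hPw : P (phi q K w) := ⟨(phi q K w).2, h1⟩
  have hPw' : ¬ P (phi q K w') := fun ⟨_, h⟩ => h2 h
  have hsep : ∀ (u u' : Fin m → Bool) (c : ℕ), c < K → (phi q K u : ℕ) ≤ c →
      c + 1 ≤ (phi q K u' : ℕ) → val u < (c + 1) * q ∧ (c + 1) * q ≤ val u' := by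
    intro u u' c hc hu hu'
    rw [phi_val] at hu hu'
    constructor
    · have : val u / q < c + 1 := by omega
      exact (Nat.div_lt_iff_lt_mul hq0).1 this
    · have : c + 1 ≤ val u' / q := by omega
      exact (Nat.le_div_iff_mul_le hq0).1 this
  have hK : (phi q K w' : ℕ) < K + 1 := (phi q K w').2
  have hK2 : (phi q K w : ℕ) < K + 1 := (phi q K w).2
  rcases le_total (phi q K w : ℕ) (phi q K w' : ℕ) with hle | hle
  · obtain ⟨c, hc1, hc2, hc3, hc4⟩ := exists_switch (p := P) hle hPw hPw'
    have hcK : c < K := by omega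
    refine ⟨⟨c, hcK⟩, ?_, Or.inl (hsep w w' c hcK hc1 hc2)⟩
    obtain ⟨h5, h6⟩ := hc3
    have h7 : ¬ p ⟨c + 1, by omega⟩ := fun h => hc4 ⟨by omega, h⟩
    intro h8
    exact h7 (h8.1 h6)
  · obtain ⟨c, hc1, hc2, hc3, hc4⟩ := exists_switch (p := fun t => ¬ P t) hle hPw' (by simpa using hPw)
    have hcK : c < K := by omega
    refine ⟨⟨c, hcK⟩, ?_, Or.inr (hsep w' w c hcK hc1 hc2)⟩
    have h4 : P (c + 1) := not_not.1 hc4
    obtain ⟨h5, h6⟩ := h4
    have h7 : ¬ p ⟨c, by omega⟩ := fun h => hc3 ⟨by omega, h⟩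
    intro h8
    exact h7 (h8.2 h6)

lemma sum_two_pow_low (m h : ℕ) :
    ∑ j : Fin m, (if (j : ℕ) < m - h then 2 * 2 ^ (j : ℕ) else 0) ≤ 2 * 2 ^ (m - h) := by
  rw [Fin.sum_univ_eq_sum_range (fun j => if j < m - h then 2 * 2 ^ j else 0) m,
    ← Finset.sum_filter]
  have : Finset.filter (fun j => j < m - h) (Finset.range m) = Finset.range (m - h) := by
    ext j; simp only [Finset.mem_filter, Finset.mem_range]; omega
  rw [this, ← Finset.mul_sum, Nat.geomSum_eq (le_refl 2)]
  have : (2 ^ (m - h) - 1) / (2 - 1) ≤ 2 ^ (m - h) := by simp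
  omega

/-- the one dimensional comparison of boundaries. -/
lemma one_dim {q K : ℕ} (hq0 : 0 < q) (h : ℕ) (p : Fin (K + 1) → Prop) [DecidablePred p] :
    ∑ j : Fin m, (if (j : ℕ) < m - h then
      (Finset.univ.filter (fun w : Fin m → Bool => p (phi q K w) ∧ ¬ p (phi q K (fl j w)))).card
      else 0) ≤ 2 * 2 ^ (m - h) * bd1 p := by
  have h1 : ∀ j : Fin m,
      (Finset.univ.filter (fun w : Fin m → Bool => p (phi q K w) ∧ ¬ p (phi q K (fl j w)))).card
        ≤ bd1 p * (2 * 2 ^ (j : ℕ)) := by
    intro j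
    have hsub : (Finset.univ.filter
        (fun w : Fin m → Bool => p (phi q K w) ∧ ¬ p (phi q K (fl j w))))
        ⊆ (Finset.univ.filter (fun c : Fin K => ¬ (p c.castSucc ↔ p c.succ))).biUnion
          (fun c => Finset.univ.filter (fun w : Fin m → Bool =>
            (val w < (c + 1) * q ∧ (c + 1) * q ≤ val (fl j w)) ∨
            (val (fl j w) < (c + 1) * q ∧ (c + 1) * q ≤ val w))) := by
      intro w hw
      have hw' := (Finset.mem_filter.1 hw).2
      obtain ⟨c, hc1, hc2⟩ := switch_sep hq0 p w (fl j w) hw'.1 hw'.2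
      rw [Finset.mem_biUnion]
      exact ⟨c, Finset.mem_filter.2 ⟨Finset.mem_univ _, hc1⟩,
        Finset.mem_filter.2 ⟨Finset.mem_univ _, hc2⟩⟩
    refine (Finset.card_le_card hsub).trans ?_
    refine (Finset.card_biUnion_le).trans ?_
    unfold bd1
    rw [← smul_eq_mul, ← Finset.sum_const]
    exact Finset.sum_le_sum (fun c _ => sep_card _ j)
  calc _ ≤ ∑ j : Fin m, (if (j : ℕ) < m - h then bd1 p * (2 * 2 ^ (j : ℕ)) else 0) := by
        refine Finset.sum_le_sum (fun j _ => ?_)
        split_ifs
        · exact h1 j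
        · exact le_rfl
    _ = bd1 p * ∑ j : Fin m, (if (j : ℕ) < m - h then 2 * 2 ^ (j : ℕ) else 0) := by
        rw [Finset.mul_sum]
        refine Finset.sum_congr rfl (fun j _ => ?_)
        split_ifs <;> simp
    _ ≤ bd1 p * (2 * 2 ^ (m - h)) := Nat.mul_le_mul_left _ (sum_two_pow_low m h)
    _ = _ := by ring

end Pool.Agent.TH385.KKGrid
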